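import Mathlib
import Pool.Agent.Results.MP_9c1228_co.Disproof
import Pool.Agent.Y472.SA.Main

/-!
# The Pick-type formula for self-affine tilings fails in every dimension

The starting result `Disproof` treats the plane.  Here: all dimensions `d ≥ 1`, with the surface area
(the `(d - 1)`-dimensional Hausdorff measure of the boundary).  `E d` (Euclidean `d`-space),
`IsSelfAffine`, `act` and `count` are those of the starting file, where they are defined for all `d`.
-/

set_option autoImplicit false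

open MeasureTheory Filter Topology

namespace Pool.Agent.Results.MP_9c1228_co.AllDimensions

open Pool.Agent.Results.MP_9c1228_co.Disproof (E IsSelfAffine act count vertices shift tiles phi
  isSelfAffine separated aperiodic patch_lim)

/-- The surface area of `X`: the `(d - 1)`-dimensional Hausdorff measure of the boundary of `X`. -/
noncomputable def surfaceArea {d : ℕ} (X : Set (E d)) : ℝ := (μH[(d : ℝ) - 1] (frontier X)).toReal

/-- All tiles are boxes with sides parallel to the axes. -/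
def HasBoxTiles {d : ℕ} (𝒯 : Set (Set (E d))) : Prop :=
  ∀ T ∈ 𝒯, ∃ a b : Fin d → ℝ, T = {p | ∀ i, a i ≤ p i ∧ p i ≤ b i}

/-- Any two vertices have distance at least `2`. -/
def IsSeparated {d : ℕ} (𝒯 : Set (Set (E d))) : Prop :=
  ∀ p ∈ vertices 𝒯, ∀ q ∈ vertices 𝒯, p ≠ q → 2 ≤ dist p q

/-- No nonzero translation maps the tiling to itself. -/
def IsNonperiodic {d : ℕ} (𝒯 : Set (Set (E d))) : Prop :=
  ∀ v, (∀ T ∈ 𝒯, shift v T ∈ 𝒯) → v = 0

/-- `Δ` is the volume per vertex: `V (φ ^ k P) / # (Γ ∩ φ ^ k P) → Δ` for every patch `P`, where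
`φ = act A`. -/
def IsDelta {d : ℕ} (𝒯 : Set (Set (E d))) (A : Matrix (Fin d) (Fin d) ℝ) (Δ : ℝ) : Prop :=
  ∀ 𝒜 ⊆ 𝒯, 𝒜.Finite → 𝒜.Nonempty → Tendsto (fun k : ℕ =>
    (volume ((act A)^[k] '' ⋃₀ 𝒜)).toReal / (count 𝒯 ((act A)^[k] '' ⋃₀ 𝒜) : ℝ)) atTop (𝓝 Δ)

/-- The error in the Pick-type formula, `# (Γ ∩ X) - (V X / Δ + # (Γ ∩ ∂ X) / 2)`. -/
noncomputable def pickError {d : ℕ} (𝒯 : Set (Set (E d))) (Δ : ℝ) (X : Set (E d)) : ℝ :=
  (count 𝒯 X : ℝ) - ((volume X).toReal / Δ + 1 / 2 * (count 𝒯 (frontier X) : ℝ))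

/-- For every `d ≥ 1` there is a self-affine tiling of `ℝ ^ d` by boxes, with `φ = 5 Id` and without
nonzero translational symmetry, for which the Pick-type formula fails already for a single tile `P`: the
surface areas of the patches `φ ^ k P` are positive and finite, and the error divided by the surface area
tends to infinity. -/
theorem result : ∀ d : ℕ, 1 ≤ d → ∃ (𝒯 : Set (Set (E d))) (A : Matrix (Fin d) (Fin d) ℝ) (Δ : ℝ),
    A = Matrix.diagonal (fun _ => (5 : ℝ)) ∧ HasBoxTiles 𝒯 ∧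
    IsSelfAffine 𝒯 A ∧ IsSeparated 𝒯 ∧ IsNonperiodic 𝒯 ∧ 0 < Δ ∧ IsDelta 𝒯 A Δ ∧
    ∃ P ∈ 𝒯, (∀ k : ℕ, 0 < μH[(d : ℝ) - 1] (frontier ((act A)^[k] '' P)) ∧
        μH[(d : ℝ) - 1] (frontier ((act A)^[k] '' P)) < ⊤) ∧
      Tendsto (fun k : ℕ => pickError 𝒯 Δ ((act A)^[k] '' P) / surfaceArea ((act A)^[k] '' P))
        atTop atTop := by
  intro d hd
  obtain ⟨n, rfl⟩ : ∃ n, d = n + 1 := ⟨d - 1, by omega⟩
  refine ⟨tiles (n + 1), phi (n + 1), 3 ^ (n + 1), rfl, ?_, isSelfAffine (n + 1), separated (n + 1),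
    aperiodic (n + 1), by positivity, ?_, Pool.Agent.Y472.SA.cube n,
    ⟨_, _, Pool.Agent.Y472.SA.gap01, rfl⟩, fun k => ?_, Pool.Agent.Y472.SA.err_lim⟩
  · rintro T ⟨x, y, -, rfl⟩
    exact ⟨_, _, rfl⟩
  · intro 𝒜 h1 h2 h3
    exact patch_lim (n + 1) 𝒜 h1 h2 h3
  · have h1 := Pool.Agent.Y472.SA.surface_image (n := n) k
    have h2 := Pool.Agent.Y472.SA.surface_pos (n := n)
    have h3 : 0 < Pool.Agent.Y472.SA.surface
        ((act (phi (n + 1)))^[k] '' Pool.Agent.Y472.SA.cube n) := by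
      rw [h1]; positivity
    exact ENNReal.toReal_pos_iff.1 h3

end Pool.Agent.Results.MP_9c1228_co.AllDimensions
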